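import Pool.Agent.N110.IM.Main
import Pool.Agent.N110.SE.Fin
import Pool.Agent.N110.CanS
import Pool.Agent.N110.RK.Stat
import Pool.Agent.N110.NV.Fin
import Pool.Agent.R887.Exc

/-!
Varieties which are dominated by a minimal variety with commuting dominant rational self-maps:
nonvanishing.
-/

set_option autoImplicit false

open FF Pool.Agent.W602.GT Pool.Agent.Y172 Pool.Agent.R887 Pool.Agent.N110

/-- Let `X'` be a normal projective variety of dimension `n ≥ 1`, with generic point `y'`, and
`Δ' ≥ 0` a `ℚ`-divisor on `X'` such that `K_X' + Δ'` is nef (for instance, let `X'` be a minimal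
variety and `Δ' = 0`). Let `ℕ ^ r` act on `X'` by dominant rational self-maps `f_a` (commuting
dominant rational self-maps `f_1, ..., f_r`, invertible or not), given by the endomorphisms
`φ a = f_a^*` of the function field. Suppose that `f_a^* (K_X' + Δ')` is at most `K_X' + Δ'` over the
prime divisors of `X'`, or that `Δ' = 0` and `X'` has canonical singularities (no condition on the
maps then). Let `s ≥ 1` be at most the growth rank: for `u` in `ℤ ^ r` with positive part `a` and
negative part `b` the degree `D(u)` of the correspondence `f_a ∘ f_b⁻¹` is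
`f_a^* H · (f_b^* H) ^ (n - 1) / deg f_b`, and `D` grows subexponentially only along linear subspaces
of `ℝ ^ r` of codimension at least `s`. For instance `s = r` if `max (D(u), D(-u)) ≥ c exp (δ |u|)`
for some `c, δ > 0`.

Let `X` be any projective variety with canonical singularities (for instance smooth) which is
dominated by `X'`: there is a dominant rational map `X' ⇢ X`, generically finite, given by the
homomorphism `π` of the function fields. It has nothing to do with the maps `f_a`, and `K_X` is not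
assumed to be nef. Then `s ≤ n`, the numerical dimension of `K_X` is at most `n - s`, and so is the
Kodaira dimension of `X`; if the Kodaira dimension is at least `n - s` then the Kodaira dimension and
the numerical dimension of `K_X` are equal. If `s = n`, the irregularity of `X` is zero and `K_X` is
pseudo-effective, then the Kodaira dimension of `X` is zero: some multiple `m K_X`, `m ≥ 1`, has a
section `ω ≠ 0`; also the numerical dimension which is defined by the number of the sections of
`m K_X + A` is zero. -/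
theorem Pool.Agent.Results.MP_813db1_ag.DominatedCommuting.result
    {K K' : Type} [Field K] [Algebra ℂ K] [Field K'] [Algebra ℂ K'] {N N' n : ℕ}
    {y : Fin (N + 1) → K} {y' : Fin (N' + 1) → K'} (hy : NormalModel y) (hy' : NormalModel y')
    (hn : Algebra.trdeg ℂ K = n) (hn' : Algebra.trdeg ℂ K' = n) (hn0 : 0 < n)
    {Δ' : Place ℂ K' → ℚ} (hΔ' : Effective y' Δ') (hnef : LogNef y' n Δ') {r s : ℕ} (hs : 0 < s)
    {φ : (Fin r → ℕ) → (K' →ₐ[ℂ] K')} (hφ : ∀ u v, φ (u + v) = φ u * φ v)
    (hP : (∀ v, SelfPullLe (φ v) y' n Δ') ∨ (Δ' = 0 ∧ Canonical y' n))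
    (hrank : SE.CorrRankGe φ y' n s ∨ (s = r ∧ SE.CorrExpGrowth φ y' n))
    (hcan : Canonical y n) (π : K →ₐ[ℂ] K') :
    s ≤ n ∧ NumDimLt y n 0 (n - s + 1) ∧ ¬ KappaGe y n 0 (n - s + 1) ∧
      (KappaGe y n 0 (n - s) → Abundant y n 0) ∧
      (s = n → LogPsef y n 0 → IrregularityZero y →
        (∃ m : ℕ, 1 ≤ m ∧ ∃ ω : (Fin n → Derivation ℂ K K) → K, ω ≠ 0 ∧ IsSection y n m 0 ω) ∧
        kodairaDim y n 0 = ((0 : ℕ) : WithBot ℕ) ∧
        ∀ A, Effective y A → Integral y A → numericalDim y n 0 A = ((0 : ℕ) : EReal)) := by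
  have hz : {P : Place ℂ K | IsPrimeDivisor y P ∧ (0 : Place ℂ K → ℚ) P ≠ 0}.Finite :=
    Set.finite_empty.subset (by rintro P ⟨-, h⟩; exact h rfl)
  have hP' : ∀ v, SelfPullLe (φ v) y' n Δ' := by
    rcases hP with h | ⟨rfl, hcan'⟩
    · exact h
    · exact fun v => selfPullLe_canonical hy' hn' hcan' (φ v)
  have hrank' : SE.CorrRankGe φ y' n s := by
    rcases hrank with h | ⟨rfl, h⟩
    · exact h
    · exact SE.corrRank_of_exp h
  obtain ⟨h1, h2'⟩ := SE.semi_main SE.stmSJ SE.stmSG SE.stmSD hy' hn' hn0 hΔ'.2 hnef hs hφ hP'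
    hrank'
  have hle : n - s + 1 ≤ n := by omega
  have h2 := IM.numDimLt_can hy hy' hn hn' hcan hΔ'.1 π hle h2'
  refine ⟨h1, h2, ?_, fun h => ⟨n - s, h, h2⟩, ?_⟩
  · rintro ⟨m, hm, ω, E, hω, h0, hind⟩
    exact kappa_lt hy hn hle h2 hm hω h0 hind
  · intro h3 hpsef hq
    rw [show n - s + 1 = 1 by omega] at h2
    obtain ⟨m, hm, ω, hω0, hω⟩ := NV.nonvanishing hy hn hn0 hz hpsef h2 hq
    have hsec : IsSection y n m 0 ω := by rwa [smul_zero] at hω
    exact ⟨⟨m, hm, ω, hω0, hsec⟩,
      abundance_zero hy hn hn0 ⟨fun _ _ => le_rfl, hz⟩ h2 hm hω hω0⟩
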