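import Pool.Agent.N115.JV.Wt

/-!
MP_813db1_ag, Q1: effective non-vanishing for the projective varieties `M` with multi-valued maps to
the varieties of the vectors whose `m`-th powers, for instance whose squares, are the values of a
polynomial of degree at most `n` at given constants, and for the base of the fibration which is
defined by such maps on an arbitrary variety `M`.

`Corr k L a n r` (`Pool/Agent/N115/JS/Cor.lean`): a rational map with at most `r` values (with
arbitrary branching) from the variety `M` with function field `L` to the variety `X_m` of the points
`x` of `P^N` such that `x i ^ m = P (a i)` for a polynomial `P` of degree at most `n`, given by a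
point `y` of `X_m` over an extension `E` of `L` of degree at most `r`; its polynomial is
`q ^ m * H`, where `H` has no `m`-fold factors. `red` is the reduced map with the coordinates
`y i / q (a i)`, `values` are the conjugates of the ratios of its coordinates. `baseField f` is the
function field of the base `M₀` of the fibration `M ⇢ M₀` which is defined by the family `f`: the
functions on `M` which are algebraic over all these values. `TCanonicalFinite k L w T`: the
`T`-canonical map of the projective manifolds with function field `L` is generically finite onto its
image (`Pool/Agent/N115/JV/Wt.lean`). The other definitions are in `Pool/Agent/N115/JS/Def.lean`.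
Parts were written by the helpers 115, 966, 603, 849, 530, 701.
-/

set_option autoImplicit false

namespace Pool.Agent.Results.MP_813db1_ag.EffectiveNonvanishing

open Pool.Agent.W602.GT (coords)
open Pool.Agent.N115.JS
open Pool.Agent.N115.JV (TCanonicalFinite)

/-- The weight `T(n, r, s) = (2 (s r n + 1)!)!`. -/
def T (n r s : ℕ) : ℕ := (2 * (s * (r * n) + 1).factorial).factorial

/-- Let `k` be algebraically closed of characteristic `0` and `f` any family of maps with at most `r`
values from a projective variety `M` with generic point `ξ` to the varieties `X_m ⊆ P^N`, `m ≥ 2`, of
the points whose `m`-th powers are the values at `a 0, ..., a N` of a polynomial of degree at most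
`n`. Let `M ⇢ M₀` be the fibration defined by `f`: the function field of `M₀` is the smallest
subfield of the function field of `M`, algebraically closed in it, over which the values of all
reduced maps are algebraic. Let `4 s r n + (s r n + s r (r - 1) + 1) ^ 2 < 2 (N + 1)`, and assume that
`dim M₀ ≤ s` or that there are at most `s` maps.

(1) If the reduced maps are jointly generically finite then the `T`-canonical map of `M` is
generically finite onto its image for the number `T = T(n, r, s)`, which depends only on `n`, `r` and
`s`. So `P_T(M) ≥ dim M + 1`.

(2) In general the same holds for `M₀`, whose dimension is at least the dimensions of the images of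
the reduced maps. -/
theorem result {k : Type} [Field k] [CharZero k] [IsAlgClosed k] {N n r s : ℕ} (hr : 1 ≤ r)
    (hs : 1 ≤ s) (hN : Bound N n r s) {a : Fin (N + 1) → k} (ha : Function.Injective a)
    {L : Type} [Field L] [Algebra k L] {M : ℕ} {ξ : Fin (M + 1) → L} (hξ : IsModel k ξ)
    {ι : Type} (f : ι → Corr k L a n r) {w : ℕ} (hw : Algebra.trdeg k (baseField f) = w)
    (hfin : w ≤ s ∨ Finite ι ∧ Nat.card ι ≤ s) :
    (JointlyFinite f → TCanonicalFinite k L w (T n r s)) ∧
    Universal f ∧ HasModel k (baseField f) ∧ (∀ i, Algebra.trdeg k (coords k (f i).red) ≤ w) ∧
    TCanonicalFinite k (baseField f) w (T n r s) := by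
  have hess : Algebra.EssFiniteType k L := Pool.Agent.W602.GT.essFinite hξ.2
  have hN' : 4 * (s * (r * n)) + (s * (r * n) + s * (r * (r - 1)) + 1) ^ 2 < 2 * (N + 1) := hN
  have hn : n ≤ N := by
    have h1 : 1 * (1 * n) ≤ s * (r * n) := Nat.mul_le_mul hs (Nat.mul_le_mul_right _ hr)
    omega
  have h1 := Pool.Agent.N115.JV.base_weight f hr hn hN' ha hw hfin
  exact ⟨h1.2, ⟨base_closed f, fun i v hv => (base_main f).1 v (Set.mem_iUnion.2 ⟨i, hv⟩),
    base_le f⟩, exists_model (baseField f), fun i => hw ▸ base_trdeg f i, h1.1⟩

end Pool.Agent.Results.MP_813db1_ag.EffectiveNonvanishing
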