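import Pool.Agent.N145.SX.MOne
import Pool.Agent.N145.SX.MFin

/-!
# Nonvanishing for varieties dominated by the product of several varieties and a curve

Let `V = X 0 × ... × X (k - 1) × C`, where the `X i` are smooth projective varieties over `ℂ` of
dimension `m i` and `C` is a smooth projective curve of any genus. Let `V ⇢ W` be a dominant rational
map of finite degree to a variety `W`. It need not be related to the product structure, and it need not
be the quotient by a group. Let `W_i` be the image of `V` in `W × X 0 × ... × X (i - 1)`, and let
`d i` be the degree over `W_i` of the image of `V` in `W_i × X i`; for example `W_0 = W`, and `d 0` is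
the number of different points of `X 0` below a general fibre of `V ⇢ W`. The product of the `d i`
is at most the degree of `V ⇢ W`.

Suppose that for all `i` the canonical forms of `X i` separate any `d i` different points of a nonempty
open subset: such points impose independent conditions on `H⁰(X i, K)`. For example, `X i` is a smooth
hypersurface of degree at least `m i + 1 + d i` in projective space, or a curve of gonality greater
than `d i`. Then the following are equivalent:

* `p_g(W) = 0`;
* `κ(W) = -∞`;
* `K_W` is not pseudo-effective;
* `W` is uniruled.

So if the canonical bundle of a projective manifold `Y` which is birational to `W` is pseudo-effective,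
then it has a section: `h⁰(Y, K_Y) > 0`.

There is no condition on the irregularity: in the first example `q(X i) = 0` if `m i > 1`, and
`q(W) = 0` is possible. The number `d` is optimal: if `W = (X × C) / G` is a bielliptic surface with
a group of order two, and `X` is the elliptic curve on which `G` acts by translations, then `d = 2`,
the canonical form of `X` separates one point, `p_g(W) = 0` and `κ(W) = 0`.

Proof. Let `f i` be canonical forms on the `X i` and `φ` a differential on `C`. The product of their
pullbacks is a regular canonical form on `V`: for vector fields which are regular along a prime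
divisor `Q` over `V` the determinant of the coordinates is expanded in blocks by Gauss elimination
with a minor of minimal order along `Q`. The trace of the product is a canonical form on `W`. If
`p_g(W) = 0` then all these traces are zero. This is a relation between the points of `V` below a
generic point of `W` which is multilinear in the values of the `f i`. At most `d i` points of `X i`
occur if the first `i` coordinates are fixed, and they are separated, so we can fix the coordinates
one after the other. It follows that the differentials `φ` have trace zero on the image of `{x} × C`
in `W × X 0 × ... × X (k - 1)` for generic `x`, so this image is a rational curve, and `W` is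
uniruled. Uniruled varieties have no pseudo-effective canonical divisor.

The parts of the Lean proof on pull-backs, products and the geometric generic fibre are due to
helpers 123, 221, 442, 160, 279, 603, 342, 75 and 78.
-/

set_option autoImplicit false
set_option linter.overlappingInstances false
set_option maxHeartbeats 4000000
set_option synthInstance.maxHeartbeats 400000

open FF Module Pool.Agent Pool.Agent.W602.GT
open Pool.Agent.W619.PQ (IsUniruled)

namespace Pool.Agent.Results.MP_813db1_ag.ProductsGenusZero

/-- **The canonical forms separate `r` points.** `E` is the function field of a variety `X` of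
dimension `m`, and `D` a rational frame of the tangent bundle. The embeddings `σ : E → Ω` are the
generic points of `X` with coordinates in the field `Ω`. At most `r` different such points impose
independent conditions on the canonical forms `ω` which are regular at all prime divisors: if
`∑ c σ * σ (ω D) = 0` for all `ω` then all the coefficients `c σ` are zero. -/
def SeparatesPoints (E : Type) [Field E] [Algebra ℂ E] (m r : ℕ) : Prop :=
  ∀ D : Fin m → Derivation ℂ E E, LinearIndependent E D →
    ∀ (Ω : Type) [Field Ω] [Algebra ℂ Ω] [IsAlgClosed Ω] (A : Finset (E →ₐ[ℂ] Ω)), A.card ≤ r →
    ∀ c : (E →ₐ[ℂ] Ω) → Ω,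
    (∀ ω : (Fin m → Derivation ℂ E E) → E, IsPluri 1 ω →
      (∀ P : Place ℂ E, Divisorial m P → RegAt P ω) → ∑ σ ∈ A, c σ * σ (ω D) = 0) →
    ∀ σ ∈ A, c σ = 0

variable {K : Type} [Field K] [Algebra ℂ K] {k : ℕ}

/-- The function field of the image `W_i` of `V` in the product of `W` and the first `i` factors.
Here `K` and `L` are the function fields of `V` and `W`, and `F l` is the one of the `l`-th
factor. -/
noncomputable def Img (F : Fin (k + 1) → IntermediateField ℂ K) (L : Type) [Field L] [Algebra L K]
    (i : ℕ) : IntermediateField L K :=
  IntermediateField.adjoin L {z | ∃ l : Fin (k + 1), l.val < i ∧ z ∈ F l}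

/-- The degree over `W_i` of the image of `V` in the product of `W_i` and the `i`-th factor. -/
noncomputable def deg (F : Fin (k + 1) → IntermediateField ℂ K) (L : Type) [Field L] [Algebra L K]
    (i : Fin (k + 1)) : ℕ :=
  finrank (Img F L i) (IntermediateField.adjoin (Img F L i) (F i : Set K))

theorem deg_eq (F : Fin (k + 1) → IntermediateField ℂ K) (L : Type) [Field L] [Algebra ℂ L]
    [Algebra L K] [IsScalarTower ℂ L K] [FiniteDimensional L K] (i : Fin (k + 1)) :
    deg F L i = finrank (N145.PC.MF F L (N145.PC.Js (k + 1) i))
      (IntermediateField.adjoin (N145.PC.MF F L (N145.PC.Js (k + 1) i)) (F i : Set K)) := by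
  unfold deg Img
  rw [N145.SX.mf_eq]

/-- The geometric genus of the varieties with function field `L`, of dimension `n`, is zero: the only
canonical form which is regular at all prime divisors is `0`. -/
def GenusZero (L : Type) [Field L] [Algebra ℂ L] (n : ℕ) : Prop :=
  ∀ ω : (Fin n → Derivation ℂ L L) → L, IsPluri 1 ω →
    (∀ P : Place ℂ L, Divisorial n P → RegAt P ω) → ∀ D, ω D = 0

/-- **Nonvanishing for varieties dominated by the product of several varieties and a curve.** Let `K`
be the function field of the product `V` of the varieties with the function fields `F i`, `i < k`, of
dimension `m i`, and of the curve with the function field `F k`, i.e. `K` is the compositum and its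
transcendence degree is `∑ m i + 1`. Let `L ⊆ K` be the function field of a variety `W` such that the
extension is finite. Suppose that for all `i < k` the canonical forms of the `i`-th variety separate
`d i` points, where `d i` is the degree over `W_i` of the image of `V` in the product of `W_i` and this
variety. Then the following are equivalent: the geometric genus of `W` is zero; `κ(W) = -∞`; `K_W` is
not pseudo-effective; `W` is uniruled. -/
theorem result [Algebra.EssFiniteType ℂ K] (m : Fin k → ℕ)
    (F : Fin (k + 1) → IntermediateField ℂ K) [∀ i, Algebra.EssFiniteType ℂ (F i)]
    [IsFF ℂ (F (Fin.last k))] (hF : ⨆ i, F i = ⊤)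
    (hm : ∀ i : Fin k, Algebra.trdeg ℂ (F i.castSucc) = m i)
    (hK : Algebra.trdeg ℂ K = (∑ i, m i + 1 : ℕ)) (L : Type) [Field L] [Algebra ℂ L]
    [Algebra L K] [IsScalarTower ℂ L K] [FiniteDimensional L K]
    (hX : ∀ i : Fin k, SeparatesPoints (F i.castSucc) (m i) (deg F L i.castSucc)) :
    [GenusZero L (∑ i, m i + 1), ¬ KodGe ℂ L (∑ i, m i + 1) (fun _ => False) 0,
      ¬ Psef ℂ L (∑ i, m i + 1) (fun _ => False), IsUniruled ℂ L (∑ i, m i + 1)].TFAE := by
  choose x D hx hD using fun i : Fin k => Pool.Agent.Y172.exists_crd (hm i)
  exact N145.SX.multi_zero0 (L := L) hF hm hK hx
    (g := fun i => deg F L i.castSucc + 1)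
    (fun i => N145.SX.sepX_of' (hx i) (hD i) fun Ω _ _ _ A hA c hc =>
      hX i (D i) (N145.SX.dual_indep (hD i)) Ω A hA c hc)
    (fun i => by
      rw [deg_eq]
      exact Nat.lt_succ_self _)

end Pool.Agent.Results.MP_813db1_ag.ProductsGenusZero
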