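import Pool.Agent.N133.TB.MgB

/-!
MP_813db1_ag, Q1: nonvanishing from tensors with values in arbitrary divisors.

`NormalModel y` (`Pool/Agent/Y172/Defs.lean`): `y` is the generic point, in homogeneous coordinates,
of a normal projective variety `X` with function field `K`; `IsPrimeDivisor y P` says that the
valuation `P` of `K` is a prime divisor of `X`. Divisors are given by their multiplicities.

`IsTensorV y Δ L T` (`Pool/Agent/N133/TB/TwA.lean`): the `K`-multilinear form `T` on the rational
vector fields is a tensor differential of `(X, Δ)` with values in the divisor `L`: if the vector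
fields `D j` are regular along the prime divisor `P` and, for `j` not in `S`, tangent to `P`, then
`T D` has order at least `- (|S| Δ P + L P)` along `P`. For `X` smooth, `Δ = 0` and `L` a divisor
these are the elements of `H⁰ (X, (Ω¹) ^ ⊗ m ⊗ O (L))`.

`AdjSec y n Δ M W ω` (`Pool/Agent/N133/TB/MgB.lean`): `ω` is a `W`-pluricanonical form with order at
least `- (W Δ P + M P)` along each prime divisor `P` of `X`, that is, a section of
`W (K_X + Δ) + M`.

`WtBasisC c T f w μ` (`Pool/Agent/N133/TB/TwB.lean`): `f 0, …, f (n - 1)` are linearly independent,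
the weights `w` have sum `0` and sum of squares `1`, and for all `i` and `J` with
`∑ s, w (J s) < c i * μ`, the coefficient `T i (f (J 0), f (J 1), …)` is zero. `lvl K f w b`
(`Pool/Agent/N133/TB/Can.lean`): the span of the `f j` with `w j ≤ b`.
-/

set_option autoImplicit false

namespace Pool.Agent.Results.MP_813db1_ag.TwistedTensors

open FF Pool.Agent.Y172 Pool.Agent.Y174 Pool.Agent.N133.TB

/-- Let `X` be a normal projective variety of dimension `n ≥ 1`, let `Δ` and `L i`, `i ∈ ι` (finite),
be any `ℚ`-divisors on `X`, let `T i` be tensor differentials of `(X, Δ)` of degree `m i` with values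
in `L i`, and let `c i ≥ 0` be real numbers, with `T i ≠ 0` for some `i` with `c i > 0`. Then

* there are integers `d i ≥ 0` and `W ≥ 0` with `∑ d i * m i = n * W` and `d i ≠ 0` for some `i` with
  `c i > 0`, such that the divisor `W (K_X + Δ) + ∑ d i • L i` has a nonzero section, or
* there are a basis `f` of the rational vector fields with weights `w` of sum `0` and sum of squares
  `1` and a number `μ > 0` such that the coefficients of `T i` of weight less than `c i * μ` vanish,
  for all `i`; `μ` is maximal, and the filtration of the tangent sheaf by the spans of the `f j` with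
  `w j ≤ b`, `b ∈ ℝ`, is unique.

For `L i = a i • (K_X + Δ)` with rational numbers `a i > - m i / n` and `c i = 1`, the first case says
that a multiple `r (K_X + Δ)` with `r = ∑ d i * (m i / n + a i) > 0` has a nonzero section. So
`κ (X) ≥ 0` if `X` has nonzero tensors with values in such multiples of `K_X` which are not unstable
at the generic point of `X`. -/
theorem result {K : Type} [Field K] [Algebra ℂ K] {n N : ℕ} {y : Fin (N + 1) → K}
    (hy : NormalModel y) (hn : Algebra.trdeg ℂ K = n) (hn1 : 1 ≤ n) {Δ : Place ℂ K → ℚ}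
    {ι : Type} [Fintype ι] {m : ι → ℕ} {L : ι → Place ℂ K → ℚ} {c : ι → ℝ} (hc : ∀ i, 0 ≤ c i)
    {T : (i : ι) → MultilinearMap K (fun _ : Fin (m i) => Derivation ℂ K K) K}
    (hT : ∀ i, IsTensorV y Δ (L i) (T i)) (hT0 : ∃ i, 0 < c i ∧ T i ≠ 0) :
    (∃ (d : ι → ℕ) (W : ℕ), (∃ i, d i ≠ 0 ∧ 0 < c i) ∧ ∑ i, d i * m i = n * W ∧
      ∃ ω, ω ≠ 0 ∧ AdjSec y n Δ (∑ i, d i • L i) W ω) ∨
    ∃ (f : Fin n → Derivation ℂ K K) (w : Fin n → ℝ) (μ : ℝ), 0 < μ ∧ WtBasisC c T f w μ ∧
      ∀ (f' : Fin n → Derivation ℂ K K) (w' : Fin n → ℝ) (μ' : ℝ), WtBasisC c T f' w' μ' →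
        μ' ≤ μ ∧ (μ' = μ → ∀ b, lvl K f' w' b = lvl K f w b) :=
  mg_can hy hn hn1 hc hT hT0

end Pool.Agent.Results.MP_813db1_ag.TwistedTensors
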